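import Pool.Agent.Helper77.KZ.Defs

/-!
Support file for MP_0aa406_nt (project KZ): chains of stuck sets, excess at least three.
-/

set_option autoImplicit false

namespace Pool.Agent.Helper40.KZ

open Finset Pool.Agent.Helper77.KZ

variable {n : ℕ}

/-- the statement of `nested` (first and third part) that is used here -/
def NestedProp (n : ℕ) : Prop := ∀ [NeZero n] {g : ZMod n → ℤ} {A U : Finset (ZMod n)}, A ⊆ U →
  Stuck g A → Stuck g U →
    ∀ y, ∀ a ∈ A, ∀ d ∈ U \ A, g (a - y) ≠ 0 → g (d - y) ≠ 0 → False

theorem vmono {g : ZMod n → ℤ} {U : Finset (ZMod n)} {F F' : ℤ} (h : Val g U F) (h' : F' ≤ F) :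
    Val g U F' := by
  obtain ⟨F'', h1, h2⟩ := h
  exact ⟨F'', h'.trans h1, h2⟩

theorem vstep {g : ZMod n → ℤ} {U : Finset (ZMod n)} {F : ℤ} (s : ZMod n)
    (h : Val g (rest g U s) F) : Val g U (F + |EE g U s - 1| - 1) := by
  obtain ⟨F', h1, h2⟩ := h
  exact ⟨F' + |EE g U s - 1| - 1, by linarith, Play.step U s F' h2⟩

/-- families of rows with pairwise disjoint covers -/
def Fam (g : ZMod n → ℤ) (S : Finset (ZMod n)) : Prop :=
  ∀ a ∈ S, ∀ b ∈ S, a ≠ b → ∀ y, g (a - y) ≠ 0 → g (b - y) ≠ 0 → False

theorem chain_of [NeZero n] (hN : NestedProp n) {g : ZMod n → ℤ} (hg : ∃ i, g i ≠ 0)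
    (U : Finset (ZMod n)) :
    ∃ A ⊆ U, Stuck g A ∧ ∃ S ⊆ A,
      (∀ a ∈ S, ∀ b ∈ S, a ≠ b → ∀ y, g (a - y) ≠ 0 → g (b - y) ≠ 0 → False) ∧
      Val g U (-(S.card : ℤ)) := by
  classical
  induction U using Finset.strongInduction with
  | H U ih =>
    rcases U.eq_empty_or_nonempty with hU | ⟨y0, hy0⟩
    · subst hU
      refine ⟨∅, Subset.rfl, ?_, ∅, Subset.rfl, ?_, ?_⟩
      · rintro s ⟨l, hl, -⟩
        simp at hl
      · intro a ha
        simp at ha
      · exact ⟨0, by simp, Play.nil⟩
    · have hrest : ∀ s, Meets g U s → rest g U s ⊂ U := by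
        rintro s ⟨l, hl, hgl⟩
        refine Finset.filter_ssubset.2 ⟨l, hl, hgl⟩
      by_cases hst : Stuck g U
      · obtain ⟨i, hi⟩ := hg
        have hm : Meets g U (i + y0) := ⟨y0, hy0, by rwa [add_sub_cancel_right]⟩
        obtain ⟨A', hA', hsA', S', hS', hF, hV⟩ := ih _ (hrest _ hm)
        have hy0r : y0 ∉ rest g U (i + y0) := by
          unfold rest
          rw [Finset.mem_filter, add_sub_cancel_right]
          exact fun h => hi h.2
        have hA'U : A' ⊆ U := hA'.trans (hrest _ hm).subset
        have hy0A : y0 ∉ A' := fun h => hy0r (hA' h)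
        have hnest := hN hA'U hsA' hst
        refine ⟨U, Subset.rfl, hst, insert y0 S', ?_, ?_, ?_⟩
        · intro z hz
          rcases Finset.mem_insert.1 hz with rfl | hz
          · exact hy0
          · exact hA'U (hS' hz)
        · have key : ∀ a ∈ S', ∀ y, g (a - y) ≠ 0 → g (y0 - y) ≠ 0 → False :=
            fun a ha y h1 h2 => hnest y a (hS' ha) y0 (Finset.mem_sdiff.2 ⟨hy0, hy0A⟩) h1 h2
          intro a ha b hb hab y h1 h2
          rcases Finset.mem_insert.1 ha with ha' | ha' <;>
            rcases Finset.mem_insert.1 hb with hb' | hb'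
          · exact hab (ha'.trans hb'.symm)
          · rw [ha'] at h1
            exact key b hb' y h2 h1
          · rw [hb'] at h2
            exact key a ha' y h1 h2
          · exact hF a ha' b hb' hab y h1 h2
        · have h1 := vstep (i + y0) hV
          rw [hst _ hm] at h1
          rw [Finset.card_insert_of_notMem fun h => hy0A (hS' h)]
          refine vmono h1 ?_
          push_cast
          simp
          try ring_nf
      · unfold Stuck at hst
        push Not at hst
        obtain ⟨s, hm, hE⟩ := hst
        obtain ⟨A', hA', hsA', S', hS', hF, hV⟩ := ih _ (hrest _ hm)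
        refine ⟨A', hA'.trans (hrest _ hm).subset, hsA', S', hS', hF, vmono (vstep s hV) ?_⟩
        have : 1 ≤ |EE g U s - 1| := by
          rw [← Int.sub_one_lt_iff, sub_self]
          exact abs_pos.2 (sub_ne_zero.2 hE)
        linarith

theorem val_three_of [NeZero n] (hN : NestedProp n) {g : ZMod n → ℤ} (he : 3 ≤ ∑ i, g i) :
    Val g univ 0 := by
  classical
  have hg : ∃ i, g i ≠ 0 := by
    by_contra hcon
    push Not at hcon
    rw [Finset.sum_eq_zero fun i _ => hcon i] at he
    omega
  -- a largest family
  set 𝓕 := (univ : Finset (ZMod n)).powerset.filter (fun S => Fam g S) with hFdef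
  have hne : 𝓕.Nonempty := ⟨∅, by
    rw [hFdef, Finset.mem_filter]
    exact ⟨Finset.empty_mem_powerset _, fun a ha => absurd ha (Finset.notMem_empty a)⟩⟩
  obtain ⟨R, hR, hmax⟩ := Finset.exists_max_image 𝓕 (fun S => S.card) hne
  have hRF : Fam g R := (Finset.mem_filter.1 hR).2
  -- playing the rows of the family
  set UU : Finset (ZMod n) → Finset (ZMod n) := fun R' => univ.filter (fun l => ∀ s ∈ R', g (s - l) = 0)
    with hUU
  set e := ∑ i, g i with he'
  have hplay : ∀ R' : Finset (ZMod n), R' ⊆ R → ∀ F : ℤ, Val g (UU R') F →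
      Val g univ (F + R'.card * (e - 2)) := by
    intro R'
    induction R' using Finset.induction_on with
    | empty =>
      intro _ F hV
      have : UU ∅ = univ := by
        rw [hUU]
        ext l
        simp
      rw [this] at hV
      simpa using hV
    | insert s R' hs ih =>
      intro hsub F hV
      have hsR : s ∈ R := hsub (Finset.mem_insert_self _ _)
      have hR'R : R' ⊆ R := fun x hx => hsub (Finset.mem_insert_of_mem hx)
      have h1 : rest g (UU R') s = UU (insert s R') := by
        ext l
        unfold rest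
        rw [hUU]
        simp only [Finset.mem_filter, Finset.mem_univ, true_and, Finset.mem_insert, forall_eq_or_imp]
        tauto
      have h2 : EE g (UU R') s = e := by
        unfold EE
        rw [hUU]
        have h3 : ∑ l ∈ univ.filter (fun l => ∀ t ∈ R', g (t - l) = 0), g (s - l) =
            ∑ l, g (s - l) := by
          rw [Finset.sum_filter]
          apply Finset.sum_congr rfl
          intro l _
          split_ifs with h
          · rfl
          · push Not at h
            obtain ⟨t, ht, htl⟩ := h
            by_contra hcon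
            have hts : t ≠ s := by
              rintro rfl
              exact hs ht
            exact hRF t (hR'R ht) s hsR hts l htl (Ne.symm hcon)
        rw [h3, he']
        exact Fintype.sum_equiv (Equiv.subLeft s) _ _ fun l => rfl
      rw [← h1] at hV
      have h4 := ih hR'R _ (vstep s hV)
      rw [h2] at h4
      rw [Finset.card_insert_of_notMem hs]
      refine vmono h4 (le_of_eq ?_)
      rw [abs_of_nonneg (by linarith)]
      push_cast
      ring
  obtain ⟨A, -, -, S, -, hSF, hV⟩ := chain_of hN hg (UU R)
  have hSR : S.card ≤ R.card := by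
    apply hmax S
    rw [hFdef, Finset.mem_filter, Finset.mem_powerset]
    exact ⟨Finset.subset_univ _, hSF⟩
  refine vmono (hplay R Subset.rfl _ hV) ?_
  have h5 : (S.card : ℤ) ≤ R.card := by exact_mod_cast hSR
  have h6 : (0 : ℤ) ≤ R.card := by positivity
  nlinarith

end Pool.Agent.Helper40.KZ
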