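import Pool.Agent.Helper87.KZ.Swap
import Pool.Agent.Helper40.KZ.Chain

/-!
Support file for MP_0aa406_nt (project KZ): chains of stuck sets, excess at least three (final form).
-/

set_option autoImplicit false

namespace Pool.Agent.Helper40.KZ

open Finset Pool.Agent.Helper77.KZ

variable {n : ℕ}

theorem nestedProp (n : ℕ) : NestedProp n :=
  fun hAU hA hU => (Pool.Agent.Helper77.KZ.nested hAU hA hU).1

theorem chain [NeZero n] {g : ZMod n → ℤ} (hg : ∃ i, g i ≠ 0) (U : Finset (ZMod n)) :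
    ∃ A ⊆ U, Stuck g A ∧ ∃ S ⊆ A,
      (∀ a ∈ S, ∀ b ∈ S, a ≠ b → ∀ y, g (a - y) ≠ 0 → g (b - y) ≠ 0 → False) ∧
      Val g U (-(S.card : ℤ)) := chain_of (nestedProp n) hg U

theorem val_three [NeZero n] {g : ZMod n → ℤ} (he : 3 ≤ ∑ i, g i) : Val g univ 0 :=
  val_three_of (nestedProp n) he

end Pool.Agent.Helper40.KZ
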